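import Mathlib
import Pool.Agent.K3h89.GD.Gaps
import Pool.Agent.K3h89.GD.Sqrt
import Pool.Agent.K3h89.GD.Power

/-!
# All gaps between the integers with a divisor in `(n, 2 n)`

Let `A_k(n)` be the set of the integers in `[n, n ^ k]` with a divisor `d`, `n < d < 2 n`.  Erdős asks if for every `k`
all the gaps between consecutive elements of `A_k(n)` are at most `(log n) ^ C(k)`.  The trivial bound is `n + 1`, from the
multiples of `n + 1`.

For every `k` there is `c > 0` such that for all large `n` ALL gaps are at most `n ^ (1 - c)`; and for `k = 2` ALL gaps are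
at most `17 √n` if `n ≥ 2116`.

Proof.  For general `k`: if no multiple of an integer `d` in `(n, 2 n)` is in `(m, m + δ d)`, then no `m / d` is in
`(-δ, 0)` modulo `1`; Fejér's kernel and van der Corput's bounds for the sums of `e (h m / d)` over `d` (iterated Weyl
differencing, `H221R2.FB.vdc_gen` of this team) show that this is impossible if `m ≥ n ^ (1 + η / 2)` and
`δ = n ^ (-η / 16)`; smaller `m` are easy.  For `k = 2`: let `c` be the integer part of `3 n ^ 2 / m`, `e` the integer part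
of `√(m / c)`, and `d` minimal with `d e > m`; then the products `(d + c j) (e - j)`, `j = 0, 1, ...`, decrease to `m` in
steps of length `O(√n)`.
-/

set_option autoImplicit false

open Finset

namespace Pool.Agent.Results.MP_7ee532_nt.AllGapsPowerSaving

/-- `m` has a divisor `d` with `n < d < 2 n` -/
def HasDivisor (n m : ℕ) : Prop := ∃ d : ℕ, n < d ∧ d < 2 * n ∧ d ∣ m

open Classical in
/-- the set `A_k(n)` of the integers in `[n, n ^ k]` with a divisor in `(n, 2 n)` -/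
noncomputable def A (k n : ℕ) : Finset ℕ := (Icc n (n ^ k)).filter (HasDivisor n)

open Classical in
/-- the pairs `(a, b)`, `a < b`, of consecutive elements of `A_k(n)` -/
noncomputable def gaps (k n : ℕ) : Finset (ℕ × ℕ) :=
  (A k n ×ˢ A k n).filter (fun z => z.1 < z.2 ∧ ∀ m ∈ A k n, ¬ (z.1 < m ∧ m < z.2))

/-- **A power saving for all gaps between the integers with a divisor in `(n, 2 n)`.**  See the explanation at the
beginning of the file. -/
theorem result :
    (∀ k : ℕ, ∃ c : ℝ, 0 < c ∧ ∃ n₀ : ℕ, ∀ n : ℕ, n₀ ≤ n → ∀ z ∈ gaps k n,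
      (z.2 : ℝ) - z.1 ≤ (n : ℝ) ^ (1 - c)) ∧
    ∀ n : ℕ, 2116 ≤ n → ∀ z ∈ gaps 2 n, (z.2 : ℝ) - z.1 ≤ 17 * Real.sqrt n := by
  classical
  refine ⟨fun k => ?_, fun n hn z hz => ?_⟩
  · obtain ⟨c, hc, n₀, H⟩ := Pool.Agent.K3h89.GD.near_power k
    refine ⟨c, hc, n₀, fun n hn z hz => ?_⟩
    have hz' : z ∈ Pool.Agent.K3h89.GD.gaps k n := hz
    have h1 := Pool.Agent.K3h89.GD.mem_gaps.1 hz'
    have h2 := (Pool.Agent.K3h89.GD.mem_A.1 h1.1.1).1
    have h3 := (Pool.Agent.K3h89.GD.mem_A.1 h1.1.2).1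
    obtain ⟨N, a1, a2, a3⟩ := H n z.1 hn h2.1 h2.2
    have h4 : z.2 ≤ N := by
      by_contra hcon
      exact h1.2.2 N (Pool.Agent.K3h89.GD.mem_A.2 ⟨⟨by omega, by omega⟩, a3⟩) ⟨a1, by omega⟩
    have h5 : (z.2 : ℝ) ≤ N := by exact_mod_cast h4
    linarith
  · have hz' : z ∈ Pool.Agent.K3h89.GD.gaps 2 n := hz
    have h1 := Pool.Agent.K3h89.GD.mem_gaps.1 hz'
    have h2 := (Pool.Agent.K3h89.GD.mem_A.1 h1.1.1).1
    have h3 := (Pool.Agent.K3h89.GD.mem_A.1 h1.1.2).1
    obtain ⟨N, a1, a2, a3⟩ := Pool.Agent.K3h89.GD.near_all n z.1 hn h2.1 h2.2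
    have h4 : z.2 ≤ z.1 + 16 * (Nat.sqrt n + 1) := by
      by_contra hcon
      exact h1.2.2 N (Pool.Agent.K3h89.GD.mem_A.2 ⟨⟨by omega, by omega⟩, a3⟩) ⟨a1, by omega⟩
    have h5 : (z.2 : ℝ) ≤ z.1 + 16 * ((Nat.sqrt n : ℝ) + 1) := by exact_mod_cast h4
    have h6 : (Nat.sqrt n : ℝ) ≤ Real.sqrt n := Real.nat_sqrt_le_real_sqrt
    have h7 : (16 : ℝ) ≤ Real.sqrt n := by
      apply Real.le_sqrt_of_sq_le
      have : (2116 : ℝ) ≤ n := by exact_mod_cast hn
      linarith
    linarith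

end Pool.Agent.Results.MP_7ee532_nt.AllGapsPowerSaving
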