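import Mathlib
import Pool.Agent.K3h89.GD.Loc

/-!
# Few long gaps between the integers with a divisor in `(n, 2 n)`

Let `A_k(n)` be the set of the integers in `[n, n ^ k]` with a divisor `d`, `n < d < 2 n`.  Erdős asks if for every `k`
all the gaps between consecutive elements of `A_k(n)` are at most `(log n) ^ C(k)`.

There is a constant `C` such that for all `k`, all `n ≥ 2`, all real `G ≥ 1` and all `u ≤ v` the gaps of length at
least `G` inside `[u, v]` have total length at most `C (v - u + n ^ 2) log n / G`.  In particular, for every `k ≥ 2`, in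
EVERY interval of length at least `n ^ 2` (and in `[n, n ^ k]`) the gaps longer than `(log n) ^ (B + 1)` cover only the
proportion `O((log n) ^ (-B))`, uniformly in `k`.

Proof.  Large sieve inequality in variance form over windows (`K3h31.WL.ls_windows` of this team): the sum over
`M < m ≤ M + X` of the square of `∑_{p} (#{multiples of p in (m, m + H]} - H / p)`, `p` the primes in `(n, 2 n)`, is at
most `6 (X + 4 n ^ 2) H ∑ 1 / p`, for all `H`; the modulus `p p'` may be larger than `X` (e.g. for `k = 2`).
-/

set_option autoImplicit false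

open Finset

namespace Pool.Agent.Results.MP_7ee532_nt.FewLongGaps

/-- `m` has a divisor `d` with `n < d < 2 n` -/
def HasDivisor (n m : ℕ) : Prop := ∃ d : ℕ, n < d ∧ d < 2 * n ∧ d ∣ m

open Classical in
/-- the set `A_k(n)` of the integers in `[n, n ^ k]` with a divisor in `(n, 2 n)` -/
noncomputable def A (k n : ℕ) : Finset ℕ := (Icc n (n ^ k)).filter (HasDivisor n)

open Classical in
/-- the pairs `(a, b)`, `a < b`, of consecutive elements of `A_k(n)` -/
noncomputable def gaps (k n : ℕ) : Finset (ℕ × ℕ) :=
  (A k n ×ˢ A k n).filter (fun z => z.1 < z.2 ∧ ∀ m ∈ A k n, ¬ (z.1 < m ∧ m < z.2))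

/-- **Few long gaps between the integers with a divisor in `(n, 2 n)`.**  See the explanation at the beginning of the
file. -/
theorem result :
    ∃ C : ℝ, 0 < C ∧ ∀ k n : ℕ, 2 ≤ n → ∀ G : ℝ, 1 ≤ G → ∀ u v : ℕ, u ≤ v →
      ∑ z ∈ (gaps k n).filter (fun z => (u ≤ z.1 ∧ z.2 ≤ v) ∧ G ≤ (z.2 : ℝ) - z.1), ((z.2 : ℝ) - z.1) ≤
        C * ((v : ℝ) - u + (n : ℝ) ^ 2) * Real.log n / G := by
  classical
  exact Pool.Agent.K3h89.GD.long_gapsL

end Pool.Agent.Results.MP_7ee532_nt.FewLongGaps
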